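import Mathlib

namespace Pool.Agent.Results.MP_130e73_co.Gap

open Finset Filter Topology
open scoped Classical

/-- Every vertex outside `S` has a neighbour in `S`. -/
def IsDom {V : Type} (G : SimpleGraph V) (S : Finset V) : Prop := ∀ v, v ∉ S → ∃ u ∈ S, G.Adj v u

/-- `d(G, i)`: the number of dominating sets with `i` elements. -/
noncomputable def d {V : Type} [Fintype V] (G : SimpleGraph V) (i : ℕ) : ℕ :=
  (univ.filter fun S : Finset V => IsDom G S ∧ S.card = i).card

/-- The domination polynomial evaluated at a real number. -/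
noncomputable def D {V : Type} [Fintype V] (G : SimpleGraph V) (x : ℝ) : ℝ :=
  ∑ i ∈ Icc 1 (Fintype.card V), (d G i : ℝ) * x ^ i

def Dm (n : ℕ) (S : Finset ℕ) : Prop := ∀ v, v < n → v ∈ S ∨ v + 1 ∈ S ∨ (1 ≤ v ∧ v - 1 ∈ S)

noncomputable def W (m n : ℕ) (x : ℝ) : ℝ :=
  ∑ S ∈ (range n).powerset, if Dm m S then x ^ S.card else 0

theorem split (m n k l : ℕ) (x : ℝ) (p : Prop) (h1 : ∀ S ⊆ range n, Dm m S ↔ p ∧ Dm k S)
    (h2 : ∀ S ⊆ range n, Dm m (insert n S) ↔ Dm l S) :
    W m (n + 1) x = (if p then W k n x else 0) + x * W l n x := by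
  rw [W, range_add_one, sum_powerset_insert (by simp), W, W, mul_sum]
  congr 1
  · split_ifs with hp
    · exact sum_congr rfl fun S hS => by simp [h1 S (mem_powerset.1 hS), hp]
    · exact sum_eq_zero fun S hS => by simp [h1 S (mem_powerset.1 hS), hp]
  · refine sum_congr rfl fun S hS => ?_
    have hn : n ∉ S := fun h => by simpa using mem_powerset.1 hS h
    rw [card_insert_of_notMem hn]
    simp only [h2 S (mem_powerset.1 hS)]
    split_ifs
    · ring
    · ring

theorem ins (n j : ℕ) (hj : j ≤ 2) (S : Finset ℕ) (hS : S ⊆ range n) :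
    Dm (n + j) (insert n S) ↔ Dm (n - 1) S := by
  have hS' : ∀ v ∈ S, v < n := fun v hv => mem_range.1 (hS hv)
  constructor
  · intro h v hv
    have := h v (by omega)
    simp only [mem_insert] at this
    grind
  · intro h v hv
    simp only [mem_insert]
    by_cases c : v < n - 1
    · have := h v c
      grind
    · grind

theorem r1 (n : ℕ) (x : ℝ) : W n (n + 1) x = W n n x + x * W (n - 1) n x := by
  simpa using split n n n (n - 1) x True (by simp) (ins n 0 (by omega))

theorem r2 (n : ℕ) (x : ℝ) : W (n + 2) (n + 2) x = x * W (n - 1) n x + x * W n (n + 1) x := by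
  have e1 := split (n + 2) (n + 1) (n + 2) n x True (by simp) (ins (n + 1) 1 (by omega))
  have e2 := split (n + 2) n 0 (n - 1) x False (fun S hS => by
    have hS' : ∀ v ∈ S, v < n := fun v hv => mem_range.1 (hS hv)
    refine ⟨fun h => ?_, fun h => h.1.elim⟩
    have := h (n + 1) (by omega)
    grind) (ins n 2 le_rfl)
  simp only [if_true, if_false, zero_add] at e1 e2
  rw [e1, e2]

theorem recur (n : ℕ) (x : ℝ) : W (n + 3) (n + 3) x =
    x * (W (n + 2) (n + 2) x + W (n + 1) (n + 1) x + W n n x) := by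
  have a := r2 (n + 1) x
  have b := r2 n x
  have c := r1 (n + 1) x
  have e := r1 n x
  simp only [Nat.add_sub_cancel] at a c
  linear_combination a + x * c + x * e - x * b

theorem w00 (x : ℝ) : W 0 0 x = 1 := by simp [W, Dm]

theorem w11 (x : ℝ) : W 1 1 x = x := by
  have := split 1 0 0 0 x False (fun S hS => by
    have : S = ∅ := by simpa using hS
    simp [this, Dm]) (ins 0 1 (by omega))
  simpa [w00] using this

theorem w22 (x : ℝ) : W 2 2 x = x + x * (1 + x) := by
  have a := r2 0 x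
  have b := r1 0 x
  simp only [zero_add, Nat.zero_sub, w00, mul_one] at a b
  rw [a, b]

theorem D_eq (n : ℕ) (hn : 1 ≤ n) (x : ℝ) : D (SimpleGraph.pathGraph n) x = W n n x := by
  have e1 : D (SimpleGraph.pathGraph n) x =
      ∑ S ∈ univ.filter (IsDom (SimpleGraph.pathGraph n)), x ^ S.card := by
    rw [D, ← sum_fiberwise_of_maps_to (g := Finset.card) (t := Icc 1 (Fintype.card (Fin n)))]
    · refine sum_congr rfl fun i _ => ?_
      rw [sum_congr rfl fun S hS => by rw [(mem_filter.1 hS).2], sum_const, filter_filter, d,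
        nsmul_eq_mul]
    · intro S hS
      refine mem_Icc.2 ⟨card_pos.2 ?_, card_le_univ S⟩
      by_contra h
      obtain ⟨u, hu, -⟩ := (mem_filter.1 hS).2 ⟨0, hn⟩ fun h' => h ⟨_, h'⟩
      exact h ⟨u, hu⟩
  rw [e1, W, ← sum_filter]
  refine sum_bij (fun S _ => S.map Fin.valEmbedding) ?_ ?_ ?_ ?_
  · intro S hS
    refine mem_filter.2 ⟨mem_powerset.2 fun v hv => ?_, fun v hv => ?_⟩
    · obtain ⟨u, -, rfl⟩ := mem_map.1 hv
      exact mem_range.2 u.2
    · by_cases c : (⟨v, hv⟩ : Fin n) ∈ S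
      · exact Or.inl (mem_map.2 ⟨_, c, rfl⟩)
      · obtain ⟨u, hu, ha⟩ := (mem_filter.1 hS).2 _ c
        rcases SimpleGraph.pathGraph_adj.1 ha with h | h
        · exact Or.inr (Or.inl (mem_map.2 ⟨u, hu, h.symm⟩))
        · have h' : u.val + 1 = v := h
          exact Or.inr (Or.inr ⟨by omega, mem_map.2 ⟨u, hu, by simp; omega⟩⟩)
  · intro S _ T _ h
    exact map_injective _ h
  · intro T hT
    obtain ⟨h1, h2⟩ := mem_filter.1 hT
    have h1' : ∀ v ∈ T, v < n := fun v hv => mem_range.1 (mem_powerset.1 h1 hv)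
    refine ⟨univ.filter fun i : Fin n => i.val ∈ T, mem_filter.2 ⟨mem_univ _, fun v hv => ?_⟩, ?_⟩
    · rcases h2 v v.2 with h | h | h
      · exact absurd (by simpa using h) hv
      · exact ⟨⟨_, h1' _ h⟩, mem_filter.2 ⟨mem_univ _, h⟩, SimpleGraph.pathGraph_adj.2 (Or.inl rfl)⟩
      · exact ⟨⟨_, h1' _ h.2⟩, mem_filter.2 ⟨mem_univ _, h.2⟩,
          SimpleGraph.pathGraph_adj.2 (Or.inr (by simp only; omega))⟩
    · ext v
      simp only [Finset.mem_map, mem_filter, mem_univ, true_and, Fin.valEmbedding_apply]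
      exact ⟨fun ⟨u, hu, e⟩ => e ▸ hu, fun h => ⟨⟨v, h1' v h⟩, h, rfl⟩⟩
  · intro S _
    rw [card_map]

def w : ℕ → ℚ
  | 0 => 1
  | 1 => -39 / 20
  | 2 => -39 / 400
  | n + 3 => -39 / 20 * (w (n + 2) + w (n + 1) + w n)

theorem W_w (n : ℕ) : W n n (-39 / 20) = w n := by
  induction n using Nat.strong_induction_on with
  | _ n ih =>
    rcases n with _ | _ | _ | n
    · simp [w00, w]
    · simp [w11, w]
    · rw [w22, w]; norm_num
    · rw [recur, w, ih _ (by omega), ih _ (by omega), ih _ (by omega)]; push_cast; ring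

def Box (s t : ℝ) : Prop := 0 < s ∧ 135 / 100 * s < t ∧ t < 168 / 100 * s

theorem box_step {x s t u : ℝ} (h1 : -196 / 100 < x) (h2 : x < -194 / 100) (a : Box s t)
    (b : Box t u) : Box u (-x * (u - t + s)) := by
  obtain ⟨a0, a1, a2⟩ := a
  obtain ⟨b0, b1, b2⟩ := b
  refine ⟨by linarith, ?_, ?_⟩
  · nlinarith
  · nlinarith

theorem result : ∃ a b : ℝ, -2 ≤ a ∧ a < b ∧ b ≤ 0 ∧
    ∀ n : ℕ, 4 ≤ n → ∀ r ∈ Set.Icc a b, D (SimpleGraph.pathGraph n) r ≠ 0 := by
  have hc : ∀ n, Continuous (W n n) := fun n =>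
    continuous_finsetSum _ fun S _ => by split_ifs <;> fun_prop
  have q1 : ∀ n < 18, w n ≠ 0 := by decide +kernel
  have q2 : 0 < w 18 ∧ 135 / 100 * w 18 < -w 19 ∧ -w 19 < 168 / 100 * w 18 ∧
      135 / 100 * -w 19 < w 20 ∧ w 20 < 168 / 100 * -w 19 := by decide +kernel
  have lt : ∀ f g : ℝ → ℝ, Continuous f → Continuous g → f (-39 / 20) < g (-39 / 20) →
      ∀ᶠ x in 𝓝 (-39 / 20 : ℝ), f x < g x :=
    fun f g hf hg h => hf.continuousAt.eventually_lt hg.continuousAt h
  have c18 := hc 18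
  have c19 := hc 19
  have c20 := hc 20
  have E1 : ∀ᶠ x in 𝓝 (-39 / 20 : ℝ), ∀ n ∈ range 18, W n n x ≠ 0 :=
    (eventually_all_finset _).2 fun n hn => (hc n).continuousAt.eventually_ne
      (by rw [W_w]; exact_mod_cast q1 n (mem_range.1 hn))
  have E2 := lt (fun _ => 0) (W 18 18) (by fun_prop) c18 (by rw [W_w]; exact_mod_cast q2.1)
  have cast : ∀ {u v : ℚ}, u < v → (u : ℝ) < v := fun h => by exact_mod_cast h
  have E3 := lt (fun x => 135 / 100 * W 18 18 x) (fun x => -W 19 19 x)
    (continuous_const.mul c18) c19.neg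
    (by simp only [W_w]; have := cast q2.2.1; push_cast at this; exact this)
  have E4 := lt (fun x => -W 19 19 x) (fun x => 168 / 100 * W 18 18 x) c19.neg
    (continuous_const.mul c18)
    (by simp only [W_w]; have := cast q2.2.2.1; push_cast at this; exact this)
  have E5 := lt (fun x => 135 / 100 * -W 19 19 x) (W 20 20) (continuous_const.mul c19.neg) c20
    (by simp only [W_w]; have := cast q2.2.2.2.1; push_cast at this; exact this)
  have E6 := lt (W 20 20) (fun x => 168 / 100 * -W 19 19 x) c20 (continuous_const.mul c19.neg)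
    (by simp only [W_w]; have := cast q2.2.2.2.2; push_cast at this; exact this)
  have E7 := lt (fun _ => -196 / 100) id (by fun_prop) (by fun_prop) (by norm_num)
  have E8 := lt id (fun _ => -194 / 100) (by fun_prop) (by fun_prop) (by norm_num)
  obtain ⟨ε, hε, h⟩ := Metric.eventually_nhds_iff.1
    (E1.and (E2.and (E3.and (E4.and (E5.and (E6.and (E7.and E8)))))))
  refine ⟨-39 / 20 - min (ε / 2) (1 / 100), -39 / 20, by linarith [min_le_right (ε / 2) (1 / 100)],
    by linarith [lt_min (half_pos hε) (show (0 : ℝ) < 1 / 100 by norm_num)], by norm_num, ?_⟩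
  intro n hn r hr
  have hd : dist r (-39 / 20) < ε := by
    rw [Real.dist_eq, abs_lt]
    constructor <;> linarith [hr.1, hr.2, min_le_left (ε / 2) (1 / 100)]
  obtain ⟨g1, g2, g3, g4, g5, g6, g7, g8⟩ := h hd
  rw [D_eq n (by omega)]
  by_cases c : n < 18
  · exact g1 n (mem_range.2 c)
  have inv : ∀ k, Box ((-1) ^ k * W (18 + k) (18 + k) r) ((-1) ^ (k + 1) * W (18 + k + 1) (18 + k + 1) r) ∧
      Box ((-1) ^ (k + 1) * W (18 + k + 1) (18 + k + 1) r)
        ((-1) ^ (k + 2) * W (18 + k + 2) (18 + k + 2) r) := by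
    intro k
    induction k with
    | zero =>
      simp only [Box]
      norm_num
      refine ⟨⟨g2, by linarith, by linarith⟩, by linarith, by linarith, by linarith⟩
    | succ k ih =>
      refine ⟨ih.2, ?_⟩
      have := box_step g7 g8 ih.1 ih.2
      have e : (-1) ^ (k + 1 + 2) * W (18 + k + 3) (18 + k + 3) r = -id r *
          ((-1) ^ (k + 2) * W (18 + k + 2) (18 + k + 2) r -
            (-1) ^ (k + 1) * W (18 + k + 1) (18 + k + 1) r + (-1) ^ k * W (18 + k) (18 + k) r) := by
        rw [recur, id]; ring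
      rw [← e] at this
      exact this
  obtain ⟨k, rfl⟩ := Nat.exists_eq_add_of_le (not_lt.1 c)
  intro h0
  have := (inv k).1.1
  rw [h0, mul_zero] at this
  exact lt_irrefl _ this

end Pool.Agent.Results.MP_130e73_co.Gap
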